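import Mathlib

/-!
# MP_5e3dfa_co: shattered systems of disjoint `r`-sets

`⌊n / (2 r)⌋ ≤ k_r(n) ≤ ⌊(n - 2) / (2 (r - 1))⌋` for all even `n ≥ 4` and all `r ≥ 3`.
-/

set_option autoImplicit false

open Finset

namespace Pool.Agent.Results.MP_5e3dfa_co.Bounds

variable {n : ℕ}

/-- any two members intersect -/
def Intersecting (F : Finset (Finset (Fin n))) : Prop := ∀ A ∈ F, ∀ B ∈ F, (A ∩ B).Nonempty

/-- `F` is a maximal intersecting family of `n/2`-element subsets of `[n]`. -/
def IsMaximalIntersecting (F : Finset (Finset (Fin n))) : Prop :=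
  (∀ A ∈ F, 2 * #A = n) ∧ Intersecting F ∧
    ∀ S : Finset (Fin n), 2 * #S = n → Intersecting (insert S F) → S ∈ F

/-- `M` is a system of pairwise disjoint `r`-element sets. -/
def IsSystem (r : ℕ) (M : Finset (Finset (Fin n))) : Prop :=
  (∀ R ∈ M, #R = r) ∧ ∀ R ∈ M, ∀ R' ∈ M, R ≠ R' → Disjoint R R'

/-- `c` consists of exactly one element from each member of `M`. -/
def IsChoice (M : Finset (Finset (Fin n))) (c : Finset (Fin n)) : Prop :=
  c ⊆ M.biUnion id ∧ ∀ R ∈ M, #(c ∩ R) = 1

/-- `M` is shattered by `F`: every choice of exactly one element from each member of `M` is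
`A ∩ ⋃ M` for some `A ∈ F`. -/
def Shattered (F M : Finset (Finset (Fin n))) : Prop :=
  ∀ c, IsChoice M c → ∃ A ∈ F, A ∩ M.biUnion id = c

/-- `k_r(n)`: the largest `k` such that every maximal intersecting family of `n/2`-element subsets
of `[n]` shatters some system of `k` pairwise disjoint `r`-element sets. -/
noncomputable def kr (n r : ℕ) : ℕ :=
  sSup {k | ∀ F : Finset (Finset (Fin n)), IsMaximalIntersecting F →
    ∃ M : Finset (Finset (Fin n)), IsSystem r M ∧ #M = k ∧ Shattered F M}

/-- existence of systems inside a given set -/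
lemma exists_system (r : ℕ) (hr : 1 ≤ r) (j : ℕ) : ∀ T : Finset (Fin n), r * j ≤ #T →
    ∃ M : Finset (Finset (Fin n)), IsSystem r M ∧ #M = j ∧ M.biUnion id ⊆ T := by
  classical
  induction j with
  | zero =>
    intro T _
    refine ⟨∅, ⟨?_, ?_⟩, card_empty, ?_⟩
    · intro R hR
      exact absurd hR (notMem_empty _)
    · intro R hR
      exact absurd hR (notMem_empty _)
    · rw [biUnion_empty]
      exact empty_subset _
  | succ j ih =>
    intro T hT
    have hT' : r * j + r ≤ #T := by
      rw [Nat.mul_succ] at hT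
      exact hT
    obtain ⟨R, hR1, hR2⟩ := exists_subset_card_eq (s := T) (n := r) (by omega)
    obtain ⟨M, ⟨hM1, hM2⟩, hM3, hM4⟩ := ih (T \ R) (by
      rw [card_sdiff_of_subset hR1]
      omega)
    have hd : ∀ R' ∈ M, Disjoint R R' := by
      intro R' hR'
      rw [disjoint_left]
      intro x hx hx'
      have : x ∈ M.biUnion id := mem_biUnion.2 ⟨R', hR', hx'⟩
      exact (mem_sdiff.1 (hM4 this)).2 hx
    have hRM : R ∉ M := by
      intro h
      have h1 := hd R h
      rw [disjoint_self_iff_empty] at h1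
      rw [h1, card_empty] at hR2
      omega
    refine ⟨insert R M, ⟨?_, ?_⟩, ?_, ?_⟩
    · intro R' hR'
      rcases mem_insert.1 hR' with rfl | h
      · exact hR2
      · exact hM1 R' h
    · intro R1 h1 R2 h2 hne
      rcases mem_insert.1 h1 with g1 | g1 <;> rcases mem_insert.1 h2 with g2 | g2
      · exact absurd (g1.trans g2.symm) hne
      · rw [g1]
        exact hd R2 g2
      · rw [g2]
        exact (hd R1 g1).symm
      · exact hM2 R1 g1 R2 g2 hne
    · rw [card_insert_of_notMem hRM, hM3]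
    · rw [biUnion_insert]
      apply union_subset hR1
      exact hM4.trans sdiff_subset

lemma card_union_system {r : ℕ} {M : Finset (Finset (Fin n))} (hM : IsSystem r M) :
    #(M.biUnion id) = r * #M := by
  have h1 : #(M.biUnion id) = ∑ R ∈ M, #(id R) :=
    card_biUnion (fun R hR R' hR' hne => hM.2 R hR R' hR' hne)
  have h2 : ∑ R ∈ M, #(id R) = ∑ _R ∈ M, r := sum_congr rfl (fun R hR => hM.1 R hR)
  rw [h1, h2, sum_const, smul_eq_mul, mul_comm]

lemma card_choice {r : ℕ} {M : Finset (Finset (Fin n))} (hM : IsSystem r M) {c : Finset (Fin n)}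
    (hc : IsChoice M c) : #c = #M := by
  classical
  have h1 : c = M.biUnion (fun R => c ∩ R) := by
    ext x
    rw [mem_biUnion]
    constructor
    · intro hx
      obtain ⟨R, hR, hxR⟩ := mem_biUnion.1 (hc.1 hx)
      exact ⟨R, hR, mem_inter.2 ⟨hx, hxR⟩⟩
    · rintro ⟨R, _, hx⟩
      exact (mem_inter.1 hx).1
  have h2 : #(M.biUnion (fun R => c ∩ R)) = #M := by
    rw [card_biUnion, sum_congr rfl (fun R hR => hc.2 R hR), sum_const, smul_eq_mul, mul_one]
    intro R hR R' hR' hne
    exact Disjoint.mono inter_subset_right inter_subset_right (hM.2 R hR R' hR' hne)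
  rw [← h1] at h2
  exact h2

/-- a choice that contains a given element -/
lemma exists_choice {r : ℕ} (hr : 1 ≤ r) {M : Finset (Finset (Fin n))} (hM : IsSystem r M)
    (x : Fin n) : ∃ c, IsChoice M c ∧ (x ∈ M.biUnion id → x ∈ c) := by
  classical
  have hne : ∀ R ∈ M, R.Nonempty := fun R hR => card_pos.1 (by rw [hM.1 R hR]; omega)
  let f : Finset (Fin n) → Fin n := fun R =>
    if x ∈ R then x else if h : R.Nonempty then h.choose else x
  have hf : ∀ R ∈ M, f R ∈ R := by
    intro R hR
    simp only [f]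
    split_ifs with h1 h2
    · exact h1
    · exact h2.choose_spec
    · exact absurd (hne R hR) h2
  have hcR : ∀ R ∈ M, M.image f ∩ R = {f R} := by
    intro R hR
    ext y
    rw [mem_inter, mem_image, mem_singleton]
    constructor
    · rintro ⟨⟨R', hR', rfl⟩, hy⟩
      by_cases h : R' = R
      · rw [h]
      · exact absurd hy (disjoint_left.1 (hM.2 R' hR' R hR h) (hf R' hR'))
    · rintro rfl
      exact ⟨⟨R, hR, rfl⟩, hf R hR⟩
  refine ⟨M.image f, ⟨?_, ?_⟩, ?_⟩
  · intro y hy
    obtain ⟨R, hR, rfl⟩ := mem_image.1 hy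
    exact mem_biUnion.2 ⟨R, hR, hf R hR⟩
  · intro R hR
    rw [hcR R hR, card_singleton]
  · intro hx
    obtain ⟨R, hR, hxR⟩ := mem_biUnion.1 hx
    refine mem_image.2 ⟨R, hR, ?_⟩
    have hxR' : x ∈ R := hxR
    simp only [f, if_pos hxR']

lemma mem_or_compl_mem (hn : 1 ≤ n) {F : Finset (Finset (Fin n))} (hF : IsMaximalIntersecting F)
    (A : Finset (Fin n)) (hA : 2 * #A = n) : A ∈ F ∨ Aᶜ ∈ F := by
  classical
  by_contra hc
  push Not at hc
  apply hc.1
  apply hF.2.2 A hA
  have key : ∀ B ∈ F, (A ∩ B).Nonempty := by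
    intro B hB
    by_contra h
    rw [not_nonempty_iff_eq_empty] at h
    apply hc.2
    have h1 : B ⊆ Aᶜ := by
      intro y hy
      rw [mem_compl]
      intro hy'
      have : y ∈ A ∩ B := mem_inter.2 ⟨hy', hy⟩
      rw [h] at this
      exact notMem_empty _ this
    have h2 : B = Aᶜ := by
      apply eq_of_subset_of_card_le h1
      rw [card_compl, Fintype.card_fin]
      have := hF.1 B hB
      omega
    rw [← h2]
    exact hB
  intro B hB C hC
  rcases mem_insert.1 hB with gB | gB <;> rcases mem_insert.1 hC with gC | gC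
  · rw [gB, gC, inter_self]
    exact card_pos.1 (by omega)
  · rw [gB]
    exact key C gC
  · rw [gC, inter_comm]
    exact key B gB
  · exact hF.2.1 B gB C gC

/-- the lower bound -/
lemma lower (r k : ℕ) (hr : 1 ≤ r) (hn : 1 ≤ n) (heven : Even n) (hk : 2 * (r * k) ≤ n)
    (F : Finset (Finset (Fin n))) (hF : IsMaximalIntersecting F) :
    ∃ M : Finset (Finset (Fin n)), IsSystem r M ∧ #M = k ∧ Shattered F M := by
  classical
  obtain ⟨T, -, hT⟩ := exists_subset_card_eq (s := (univ : Finset (Fin n))) (n := r * k)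
    (by rw [card_univ, Fintype.card_fin]; omega)
  obtain ⟨M, hM, hMk, hMT⟩ := exists_system r hr k T hT.ge
  obtain ⟨M', hM', hMk', hMT'⟩ := exists_system r hr k Tᶜ (by
    rw [card_compl, Fintype.card_fin, hT]
    omega)
  by_contra hc
  push Not at hc
  have h1 := hc M hM hMk
  have h2 := hc M' hM' hMk'
  unfold Shattered at h1 h2
  push Not at h1 h2
  obtain ⟨c, hc1, hc2⟩ := h1
  obtain ⟨c', hc1', hc2'⟩ := h2
  set U := M.biUnion id with hU
  set U' := M'.biUnion id with hU'
  have hUU' : Disjoint U U' := by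
    rw [disjoint_left]
    intro x hx hx'
    exact (mem_compl.1 (hMT' hx')) (hMT hx)
  have cU : #U = r * k := by rw [hU, card_union_system hM, hMk]
  have cU' : #U' = r * k := by rw [hU', card_union_system hM', hMk']
  have cc : #c = k := by rw [card_choice hM hc1, hMk]
  have cc' : #c' = k := by rw [card_choice hM' hc1', hMk']
  have hkr : k ≤ r * k := Nat.le_mul_of_pos_left k hr
  have hcU : c ⊆ U := hc1.1
  have hcU' : c' ⊆ U' := hc1'.1
  obtain ⟨h, hh⟩ := heven
  obtain ⟨W, hW1, hW2⟩ := exists_subset_card_eq (s := (U ∪ U')ᶜ) (n := h - r * k) (by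
    rw [card_compl, Fintype.card_fin, card_union_of_disjoint hUU', cU, cU']
    omega)
  have hWU : ∀ x ∈ W, x ∉ U ∧ x ∉ U' := by
    intro x hx
    have := mem_compl.1 (hW1 hx)
    rw [mem_union, not_or] at this
    exact this
  let A := c ∪ (U' \ c') ∪ W
  have hAc : #A = h := by
    have d1 : Disjoint (c ∪ (U' \ c')) W := by
      rw [disjoint_left]
      intro x hx hxW
      rcases mem_union.1 hx with h1 | h1
      · exact (hWU x hxW).1 (hcU h1)
      · exact (hWU x hxW).2 (mem_sdiff.1 h1).1
    have d2 : Disjoint c (U' \ c') := by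
      rw [disjoint_left]
      intro x hx hx'
      exact disjoint_left.1 hUU' (hcU hx) (mem_sdiff.1 hx').1
    show #(c ∪ (U' \ c') ∪ W) = h
    rw [card_union_of_disjoint d1, card_union_of_disjoint d2, card_sdiff_of_subset hcU', cU', cc,
      cc', hW2]
    omega
  have hAU : A ∩ U = c := by
    ext x
    constructor
    · intro hx
      rw [mem_inter] at hx
      rcases mem_union.1 hx.1 with h1 | h1
      · rcases mem_union.1 h1 with h2 | h2
        · exact h2
        · exact absurd (mem_sdiff.1 h2).1 (disjoint_left.1 hUU' hx.2)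
      · exact absurd hx.2 (hWU x h1).1
    · intro hx
      exact mem_inter.2 ⟨mem_union_left _ (mem_union_left _ hx), hcU hx⟩
  have hAU' : Aᶜ ∩ U' = c' := by
    ext x
    constructor
    · intro hx
      rw [mem_inter, mem_compl] at hx
      by_contra h1
      exact hx.1 (mem_union_left _ (mem_union_right _ (mem_sdiff.2 ⟨hx.2, h1⟩)))
    · intro hx
      rw [mem_inter, mem_compl]
      refine ⟨?_, hcU' hx⟩
      intro h1
      rcases mem_union.1 h1 with h2 | h2
      · rcases mem_union.1 h2 with h3 | h3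
        · exact disjoint_left.1 hUU' (hcU h3) (hcU' hx)
        · exact (mem_sdiff.1 h3).2 hx
      · exact (hWU x h2).2 (hcU' hx)
  rcases mem_or_compl_mem hn hF A (by omega) with h3 | h3
  · exact hc2 A h3 hAU
  · exact hc2' Aᶜ h3 hAU'

/-- the family used for the upper bound: the `n/2`-sets that avoid a point -/
def Avoid (x : Fin n) : Finset (Finset (Fin n)) := univ.filter (fun A => 2 * #A = n ∧ x ∉ A)

lemma mem_Avoid {x : Fin n} {A : Finset (Fin n)} : A ∈ Avoid x ↔ 2 * #A = n ∧ x ∉ A := by
  simp [Avoid]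

lemma avoid_maximal (x : Fin n) : IsMaximalIntersecting (Avoid x) := by
  classical
  refine ⟨fun A hA => (mem_Avoid.1 hA).1, ?_, ?_⟩
  · intro A hA B hB
    rw [mem_Avoid] at hA hB
    by_contra h
    rw [not_nonempty_iff_eq_empty, ← disjoint_iff_inter_eq_empty] at h
    have h1 := card_union_of_disjoint h
    have h2 : A ∪ B ⊆ univ.erase x := by
      intro y hy
      refine mem_erase.2 ⟨?_, mem_univ _⟩
      rintro rfl
      rcases mem_union.1 hy with h3 | h3
      · exact hA.2 h3
      · exact hB.2 h3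
    have h3 := card_le_card h2
    rw [card_erase_of_mem (mem_univ _), card_univ, Fintype.card_fin] at h3
    have hpos : 0 < n := Fin.pos x
    omega
  · intro S hS hI
    rw [mem_Avoid]
    refine ⟨hS, fun hxS => ?_⟩
    have h1 : Sᶜ ∈ Avoid x := by
      rw [mem_Avoid, card_compl, Fintype.card_fin, mem_compl, not_not]
      exact ⟨by omega, hxS⟩
    obtain ⟨y, hy⟩ := hI S (mem_insert_self _ _) Sᶜ (mem_insert_of_mem h1)
    rw [mem_inter, mem_compl] at hy
    exact hy.2 hy.1

/-- the upper bound -/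
lemma upper (r : ℕ) (hr : 2 ≤ r) (x : Fin n) (M : Finset (Finset (Fin n))) (hM : IsSystem r M)
    (hS : Shattered (Avoid x) M) : 2 * ((r - 1) * #M) + 2 ≤ n := by
  classical
  obtain ⟨c, hc, hcx⟩ := exists_choice (by omega) hM x
  obtain ⟨A, hA, hAc⟩ := hS c hc
  rw [mem_Avoid] at hA
  have hxU : x ∉ M.biUnion id := by
    intro h
    have h1 := hcx h
    rw [← hAc] at h1
    exact hA.2 (mem_inter.1 h1).1
  have h1 : Disjoint A (insert x (M.biUnion id \ c)) := by
    rw [disjoint_left]
    intro y hy hy'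
    rcases mem_insert.1 hy' with rfl | h2
    · exact hA.2 hy
    · rw [mem_sdiff] at h2
      apply h2.2
      rw [← hAc]
      exact mem_inter.2 ⟨hy, h2.1⟩
  have h2 := card_union_of_disjoint h1
  have h3 : #(A ∪ insert x (M.biUnion id \ c)) ≤ n := by
    have := card_le_univ (A ∪ insert x (M.biUnion id \ c))
    rwa [Fintype.card_fin] at this
  have h4 : x ∉ M.biUnion id \ c := fun h => hxU (mem_sdiff.1 h).1
  rw [card_insert_of_notMem h4, card_sdiff_of_subset hc.1, card_union_system hM,
    card_choice hM hc] at h2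
  have h5 : r * #M - #M = (r - 1) * #M := by
    rw [Nat.sub_mul, one_mul]
  rw [h5] at h2
  omega

/-- **`⌊n / (2 r)⌋ ≤ k_r(n) ≤ ⌊(n - 2) / (2 (r - 1))⌋` for all even `n ≥ 4` and all `r ≥ 3`.** -/
theorem result (n r : ℕ) (hn : 4 ≤ n) (heven : Even n) (hr : 3 ≤ r) :
    n / (2 * r) ≤ kr n r ∧ kr n r ≤ (n - 2) / (2 * (r - 1)) := by
  have hub : ∀ k ∈ {k | ∀ F : Finset (Finset (Fin n)), IsMaximalIntersecting F →
      ∃ M : Finset (Finset (Fin n)), IsSystem r M ∧ #M = k ∧ Shattered F M},
      k ≤ (n - 2) / (2 * (r - 1)) := by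
    intro k hk
    let x : Fin n := ⟨0, by omega⟩
    obtain ⟨M, hM, hMk, hMs⟩ := hk (Avoid x) (avoid_maximal x)
    have h1 := upper r (by omega) x M hM hMs
    rw [hMk] at h1
    rw [Nat.le_div_iff_mul_le (by omega)]
    have h2 : k * (2 * (r - 1)) = 2 * ((r - 1) * k) := by ring
    omega
  have hmem : n / (2 * r) ∈ {k | ∀ F : Finset (Finset (Fin n)), IsMaximalIntersecting F →
      ∃ M : Finset (Finset (Fin n)), IsSystem r M ∧ #M = k ∧ Shattered F M} := by
    intro F hF
    apply lower r (n / (2 * r)) (by omega) (by omega) heven _ F hF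
    have h1 := Nat.div_mul_le_self n (2 * r)
    calc 2 * (r * (n / (2 * r))) = n / (2 * r) * (2 * r) := by ring
      _ ≤ n := h1
  exact ⟨le_csSup ⟨_, hub⟩ hmem, csSup_le ⟨_, hmem⟩ hub⟩

end Pool.Agent.Results.MP_5e3dfa_co.Bounds
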